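import Pool.Agent.Helper74.NS.Basic

/-!
# The recursive evaluation with a pushdown store
-/

set_option autoImplicit false

namespace Pool.Agent.Helper96.NS

open Pool.Agent.Helper74.NS Pool.Agent.Helper18.IP

/-! ## Runs -/

section runs

variable {C A S Γ : Type}

/-- From the configuration `c` the program outputs `a` and queries only cells in `Z`. -/
def Good (P : PBP C A S Γ) (I : C → A) (Z : Set C) (a : A) (c : S × List Γ) : Prop :=
  (∃ m, P.act ((P.step I)^[m] c).1 = .out a) ∧
    ∀ m v nx, P.act ((P.step I)^[m] c).1 = .ask v nx → v ∈ Z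

variable {P : PBP C A S Γ} {I : C → A} {Z : Set C} {a : A}

theorem good_out {c : S × List Γ} (h : P.act c.1 = .out a) : Good P I Z a c := by
  have h1 : ∀ m, (P.step I)^[m] c = c := by
    intro m
    induction m with
    | zero => rfl
    | succ m ih =>
      rw [Function.iterate_succ_apply', ih]
      unfold PBP.step
      simp only [h]
  refine ⟨⟨0, h⟩, fun m v nx hm => ?_⟩
  rw [h1, h] at hm
  cases hm

theorem good_one {c c' : S × List Γ} (h : P.step I c = c') (hZ : ∀ v nx, P.act c.1 = .ask v nx → v ∈ Z)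
    (hg : Good P I Z a c') : Good P I Z a c := by
  obtain ⟨⟨m, hm⟩, h2⟩ := hg
  refine ⟨⟨m + 1, by rw [Function.iterate_succ_apply, h]; exact hm⟩, fun m' v nx hm' => ?_⟩
  rcases m' with _ | m'
  · exact hZ v nx hm'
  · rw [Function.iterate_succ_apply, h] at hm'
    exact h2 m' v nx hm'

theorem good_ask {s : S} {st : List Γ} {v : C} {nx : A → S} (h : P.act s = .ask v nx) (hv : v ∈ Z)
    (hg : Good P I Z a (nx (I v), st)) : Good P I Z a (s, st) := by
  refine good_one ?_ ?_ hg
  · unfold PBP.step
    simp only [h]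
  · intro v' nx' h'
    rw [h] at h'
    cases h'
    exact hv

theorem good_push {s s' : S} {st : List Γ} {g : Γ} (h : P.act s = .push g s')
    (hg : Good P I Z a (s', g :: st)) : Good P I Z a (s, st) := by
  refine good_one ?_ ?_ hg
  · unfold PBP.step
    simp only [h]
  · intro v' nx' h'
    rw [h] at h'
    cases h'

theorem good_pop {s : S} {st : List Γ} {g : Γ} {nx : Γ → S} (h : P.act s = .pop nx)
    (hg : Good P I Z a (nx g, st)) : Good P I Z a (s, g :: st) := by
  refine good_one ?_ ?_ hg
  · unfold PBP.step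
    simp only [h]
  · intro v' nx' h'
    rw [h] at h'
    cases h'

end runs

/-! ## The program -/

section program

variable {N d : ℕ} {A : Type}

/-- The states: a slot `(i, u, s)` (table `s` for the element `u` of row `i + 1`) and the sum before it; the same with
the argument of the table; a value just found; an element of the last row and the sum before it; the same with the
value of the element; the output. -/
abbrev St (R N d : ℕ) (A : Type) : Type :=
  ((Fin R × Fin N × Fin d) × A) ⊕ ((Fin R × Fin N × Fin d) × A × A) ⊕ A ⊕ (Fin N × A) ⊕ (Fin N × A × A) ⊕ A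

/-- The stack symbols. -/
abbrev Sy (R N d : ℕ) (A : Type) : Type := ((Fin R × Fin N × Fin d) × A) ⊕ (Fin N × A)

variable {R : ℕ}

/-- A slot and the sum before it. -/
def go (x : (Fin R × Fin N × Fin d) × A) : St R N d A := .inl x
/-- A slot, the sum before it and the argument. -/
def got (x : (Fin R × Fin N × Fin d) × A × A) : St R N d A := .inr (.inl x)
/-- A value. -/
def done (x : A) : St R N d A := .inr (.inr (.inl x))
/-- An element of the last row and the sum before it. -/
def rt (x : Fin N × A) : St R N d A := .inr (.inr (.inr (.inl x)))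
/-- An element of the last row, the sum before it and the value of the element. -/
def rgot (x : Fin N × A × A) : St R N d A := .inr (.inr (.inr (.inr (.inl x))))
/-- The output. -/
def fin (x : A) : St R N d A := .inr (.inr (.inr (.inr (.inr x))))

variable [AddCommGroup A] [NeZero d]

/-- The state in which the evaluation of the element `u` of row `i` starts. -/
def ent (x0 : Fin N → A) : (i : ℕ) → i ≤ R → Fin N → St R N d A
  | 0, _, u => done (x0 u)
  | i + 1, h, u => go ((⟨i, h⟩, u, 0), 0)

/-- The state after the slot `(i, u, s)`, with the new sum `t`. -/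
def nxt (i : Fin R) (u : Fin N) (s : Fin d) (t : A) : St R N d A :=
  if h : (s : ℕ) + 1 < d then go ((i, u, ⟨s + 1, h⟩), t) else done t

/-- The state after the element `u` of the last row, with the new sum `t`. -/
def rnxt (u : Fin N) (t : A) : St R N d A :=
  if h : (u : ℕ) + 1 < N then rt (⟨u + 1, h⟩, t) else fin t

/-- The instructions. -/
def pact (g : Fin d → Equiv.Perm (Fin N)) (x0 : Fin N → A) : St R N d A → PAct (Cell d A) A (St R N d A) (Sy R N d A)
  | .inl (σ, t) => .push (.inl (σ, t)) (ent x0 σ.1 σ.1.2.le (g σ.2.2 σ.2.1))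
  | .inr (.inl (σ, t, x)) => .ask (σ.2.2, x) (fun b => nxt σ.1 σ.2.1 σ.2.2 (t + b))
  | .inr (.inr (.inl x)) => .pop (fun y => match y with
      | .inl (σ, t) => got (σ, t, x)
      | .inr (u, t) => rgot (u, t, x))
  | .inr (.inr (.inr (.inl (u, t)))) => .push (.inr (u, t)) (ent x0 R le_rfl u)
  | .inr (.inr (.inr (.inr (.inl (u, t, x))))) => .ask (0, x) (fun b => rnxt u (t + b))
  | .inr (.inr (.inr (.inr (.inr x)))) => .out x

/-- The program. -/
def prog (g : Fin d → Equiv.Perm (Fin N)) (x0 : Fin N → A) (R : ℕ) (hN : 1 ≤ N) :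
    PBP (Cell d A) A (St R N d A) (Sy R N d A) where
  start := rt (⟨0, hN⟩, 0)
  act := pact g x0

/-- The cells which are needed. -/
def need (g : Fin d → Equiv.Perm (Fin N)) (x0 : Fin N → A) (R : ℕ) (I : Cell d A → A) :
    (Fin R × Fin N × Fin d) ⊕ Fin N → Cell d A
  | .inl (i, u, s) => (s, val g x0 I i (g s u))
  | .inr u => (0, val g x0 I R u)

variable (g : Fin d → Equiv.Perm (Fin N)) (x0 : Fin N → A) (hN : 1 ≤ N) (I : Cell d A → A)

/-- One value of a table, or `0`. -/
def tb (i : ℕ) (u : Fin N) (s : ℕ) : A := if h : s < d then I (⟨s, h⟩, val g x0 I i (g ⟨s, h⟩ u)) else 0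

omit [NeZero d] in
theorem sum_tb (i : ℕ) (u : Fin N) : ∑ s ∈ Finset.range d, tb g x0 I i u s = val g x0 I (i + 1) u := by
  unfold tb
  rw [← Finset.sum_fin_eq_sum_range (fun s : Fin d => I (s, val g x0 I i (g s u)))]
  rfl

/-- The evaluation of an element of a row. -/
theorem run_val : ∀ (i : ℕ) (hi : i ≤ R) (u : Fin N) (a : A) (st : List (Sy R N d A)),
    Good (prog g x0 R hN) I (Set.range (need g x0 R I)) a (done (val g x0 I i u), st) →
    Good (prog g x0 R hN) I (Set.range (need g x0 R I)) a (ent x0 i hi u, st) := by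
  intro i
  induction i with
  | zero => intro hi u a st h; exact h
  | succ i IH =>
    intro hi u a st h
    have key : ∀ (m j : ℕ) (hj : j < d), d = j + (m + 1) → ∀ t : A, t = ∑ s ∈ Finset.range j, tb g x0 I i u s →
        Good (prog g x0 R hN) I (Set.range (need g x0 R I)) a (go ((⟨i, hi⟩, u, ⟨j, hj⟩), t), st) := by
      intro m
      induction m with
      | zero =>
        intro j hj hd t ht
        refine good_push (P := prog g x0 R hN) (g := .inl ((⟨i, hi⟩, u, ⟨j, hj⟩), t)) rfl ?_
        refine IH _ _ a _ ?_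
        refine good_pop (P := prog g x0 R hN) (s := done _) rfl ?_
        refine good_ask (P := prog g x0 R hN) (s := got _) rfl ⟨.inl (⟨i, hi⟩, u, ⟨j, hj⟩), rfl⟩ ?_
        have e : t + I (⟨j, hj⟩, val g x0 I i (g ⟨j, hj⟩ u)) = val g x0 I (i + 1) u := by
          rw [← sum_tb, ht]
          have hr : Finset.range d = Finset.range (j + 1) := congrArg Finset.range (by omega)
          rw [hr, Finset.sum_range_succ]
          conv_rhs => rw [tb, dif_pos hj]
        show Good (prog g x0 R hN) I (Set.range (need g x0 R I)) a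
          (nxt ⟨i, hi⟩ u ⟨j, hj⟩ (t + I (⟨j, hj⟩, val g x0 I i (g ⟨j, hj⟩ u))), st)
        rw [e]
        unfold nxt
        rw [dif_neg (by show ¬ (j + 1 < d); omega)]
        exact h
      | succ m ih =>
        intro j hj hd t ht
        refine good_push (P := prog g x0 R hN) (g := .inl ((⟨i, hi⟩, u, ⟨j, hj⟩), t)) rfl ?_
        refine IH _ _ a _ ?_
        refine good_pop (P := prog g x0 R hN) (s := done _) rfl ?_
        refine good_ask (P := prog g x0 R hN) (s := got _) rfl ⟨.inl (⟨i, hi⟩, u, ⟨j, hj⟩), rfl⟩ ?_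
        show Good (prog g x0 R hN) I (Set.range (need g x0 R I)) a
          (nxt ⟨i, hi⟩ u ⟨j, hj⟩ (t + I (⟨j, hj⟩, val g x0 I i (g ⟨j, hj⟩ u))), st)
        unfold nxt
        rw [dif_pos (by show j + 1 < d; omega)]
        refine ih (j + 1) _ (by omega) _ ?_
        rw [Finset.sum_range_succ, ht]
        conv_rhs => rw [tb, dif_pos hj]
    exact key (d - 1) 0 (NeZero.pos d) (by have := NeZero.pos d; omega) 0 (by simp)

/-- One value of the first table, or `0`. -/
def rb (R : ℕ) (u : ℕ) : A := if h : u < N then I (0, val g x0 I R ⟨u, h⟩) else 0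

theorem sum_rb : ∑ u ∈ Finset.range N, rb g x0 I R u = out g x0 R I := by
  unfold rb
  rw [← Finset.sum_fin_eq_sum_range (fun u : Fin N => I (0, val g x0 I R u))]
  rfl

/-- The evaluation of the output. -/
theorem run_out : Good (prog g x0 R hN) I (Set.range (need g x0 R I)) (out g x0 R I) (rt (⟨0, hN⟩, 0), []) := by
  have key : ∀ (m j : ℕ) (hj : j < N), N = j + (m + 1) → ∀ t : A, t = ∑ u ∈ Finset.range j, rb g x0 I R u →
      Good (prog g x0 R hN) I (Set.range (need g x0 R I)) (out g x0 R I) (rt (⟨j, hj⟩, t), []) := by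
    intro m
    induction m with
    | zero =>
      intro j hj hd t ht
      refine good_push (P := prog g x0 R hN) (g := .inr (⟨j, hj⟩, t)) rfl ?_
      refine run_val g x0 hN I _ _ _ _ _ ?_
      refine good_pop (P := prog g x0 R hN) (s := done _) rfl ?_
      refine good_ask (P := prog g x0 R hN) (s := rgot _) rfl ⟨.inr ⟨j, hj⟩, rfl⟩ ?_
      have e : t + I (0, val g x0 I R ⟨j, hj⟩) = out g x0 R I := by
        rw [← sum_rb, ht]
        have hr : Finset.range N = Finset.range (j + 1) := congrArg Finset.range (by omega)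
        rw [hr, Finset.sum_range_succ]
        conv_rhs => rw [rb, dif_pos hj]
      show Good (prog g x0 R hN) I (Set.range (need g x0 R I)) (out g x0 R I)
        (rnxt ⟨j, hj⟩ (t + I (0, val g x0 I R ⟨j, hj⟩)), [])
      rw [e]
      unfold rnxt
      rw [dif_neg (by show ¬ (j + 1 < N); omega)]
      exact good_out rfl
    | succ m ih =>
      intro j hj hd t ht
      refine good_push (P := prog g x0 R hN) (g := .inr (⟨j, hj⟩, t)) rfl ?_
      refine run_val g x0 hN I _ _ _ _ _ ?_
      refine good_pop (P := prog g x0 R hN) (s := done _) rfl ?_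
      refine good_ask (P := prog g x0 R hN) (s := rgot _) rfl ⟨.inr ⟨j, hj⟩, rfl⟩ ?_
      show Good (prog g x0 R hN) I (Set.range (need g x0 R I)) (out g x0 R I)
        (rnxt ⟨j, hj⟩ (t + I (0, val g x0 I R ⟨j, hj⟩)), [])
      unfold rnxt
      rw [dif_pos (by show j + 1 < N; omega)]
      refine ih (j + 1) _ (by omega) _ ?_
      rw [Finset.sum_range_succ, ht]
      conv_rhs => rw [rb, dif_pos hj]
  exact key (N - 1) 0 hN (by omega) 0 (by simp)

end program

/-- The number of the states. -/
theorem card_St {R N d : ℕ} {A : Type} [Fintype A] (hA : (R + 1) * N ≤ Fintype.card A) (hA2 : 2 ≤ Fintype.card A)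
    (hd : 1 ≤ d) : Nat.card (St R N d A) ≤ (d * Fintype.card A) ^ 4 := by
  have h1 : Nat.card (St R N d A) = (R * (N * d)) * Fintype.card A + ((R * (N * d)) *
      (Fintype.card A * Fintype.card A) + (Fintype.card A + (N * Fintype.card A +
        (N * (Fintype.card A * Fintype.card A) + Fintype.card A)))) := by
    rw [Nat.card_eq_fintype_card]
    simp only [Fintype.card_sum, Fintype.card_prod, Fintype.card_fin]
  rw [h1]
  generalize Fintype.card A = k at hA hA2
  have e1 : R * (N * d) + N ≤ d * k := by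
    calc R * (N * d) + N ≤ R * (N * d) + N * d := by nlinarith
      _ = d * ((R + 1) * N) := by ring
      _ ≤ d * k := Nat.mul_le_mul le_rfl hA
  have e2 : (R * (N * d)) * k + ((R * (N * d)) * (k * k) + (k + (N * k + (N * (k * k) + k)))) =
      (R * (N * d) + N) * (k + k * k) + 2 * k := by ring
  rw [e2]
  have e3 : (R * (N * d) + N) * (k + k * k) ≤ (d * k) * (k + k * k) := Nat.mul_le_mul e1 le_rfl
  have e4 : 2 * k ≤ d * k * k := by nlinarith
  have e5 : k ≤ d * k := by nlinarith
  have e6 : (d * k) * (k + k * k) + d * k * k ≤ (d * k) * (k * (k * k)) := by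
    have : k + k * k + k ≤ k * (k * k) := by nlinarith [Nat.mul_le_mul hA2 hA2, Nat.mul_le_mul hA2 (le_refl (k * k))]
    calc (d * k) * (k + k * k) + d * k * k = (d * k) * (k + k * k + k) := by ring
      _ ≤ (d * k) * (k * (k * k)) := Nat.mul_le_mul le_rfl this
  have e7 : (d * k) * (k * (k * k)) ≤ (d * k) * ((d * k) * ((d * k) * (d * k))) := by gcongr
  calc (R * (N * d) + N) * (k + k * k) + 2 * k ≤ (d * k) * (k * (k * k)) := by omega
    _ ≤ (d * k) * ((d * k) * ((d * k) * (d * k))) := e7
    _ = (d * k) ^ 4 := by ring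

/-- The number of the stack symbols. -/
theorem card_Sy {R N d : ℕ} {A : Type} [Fintype A] (hA : (R + 1) * N ≤ Fintype.card A) (hd : 1 ≤ d) :
    Nat.card (Sy R N d A) ≤ (d * Fintype.card A) ^ 2 := by
  have h1 : Nat.card (Sy R N d A) = (R * (N * d)) * Fintype.card A + N * Fintype.card A := by
    rw [Nat.card_eq_fintype_card]
    simp only [Fintype.card_sum, Fintype.card_prod, Fintype.card_fin]
  rw [h1]
  generalize Fintype.card A = k at hA
  have e1 : R * (N * d) + N ≤ d * k := by
    calc R * (N * d) + N ≤ R * (N * d) + N * d := by nlinarith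
      _ = d * ((R + 1) * N) := by ring
      _ ≤ d * k := Nat.mul_le_mul le_rfl hA
  have e5 : k ≤ d * k := by nlinarith
  calc (R * (N * d)) * k + N * k = (R * (N * d) + N) * k := by ring
    _ ≤ (d * k) * (d * k) := Nat.mul_le_mul e1 e5
    _ = (d * k) ^ 2 := by ring

/-- The pushdown program, with the sharper number of stack symbols. -/
theorem pushdown_program' {N d : ℕ} {A : Type} [AddCommGroup A] [Fintype A] [NeZero d]
    (g : Fin d → Equiv.Perm (Fin N)) (x0 : Fin N → A) (R : ℕ)
    (hA : (R + 1) * N ≤ Fintype.card A) (hN : 1 ≤ N) (hA2 : 2 ≤ Fintype.card A) :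
    ∃ (Q Γ : Type) (_ : Finite Q) (_ : Finite Γ) (P : PBP (Cell d A) A Q Γ),
      Nat.card Q ≤ (d * Fintype.card A) ^ 4 ∧ Nat.card Γ ≤ (d * Fintype.card A) ^ 2 ∧
      ∀ I, P.Outputs I (out g x0 R I) ∧ Nat.card {c // P.Asks I c} ≤ (R * d + 1) * N := by
  have hd : 1 ≤ d := NeZero.pos d
  refine ⟨St R N d A, Sy R N d A, inferInstance, inferInstance, prog g x0 R hN, card_St hA hA2 hd, card_Sy hA hd,
    fun I => ?_⟩
  obtain ⟨h1, h2⟩ := run_out (R := R) g x0 hN I
  refine ⟨h1, ?_⟩
  have h3 : ∀ c : {c // (prog g x0 R hN).Asks I c}, ∃ σ, need g x0 R I σ = c.1 := by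
    rintro ⟨c, m, nx, hm⟩
    exact h2 m c nx hm
  choose f hf using h3
  have h4 : Function.Injective f := fun c c' h => Subtype.ext (by rw [← hf c, ← hf c', h])
  calc Nat.card {c // (prog g x0 R hN).Asks I c} ≤ Nat.card ((Fin R × Fin N × Fin d) ⊕ Fin N) :=
        Nat.card_le_card_of_injective f h4
    _ = R * (N * d) + N := by
        rw [Nat.card_eq_fintype_card]
        simp only [Fintype.card_sum, Fintype.card_prod, Fintype.card_fin]
    _ = (R * d + 1) * N := by ring

/-- P7: the deterministic pushdown program. -/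
theorem pushdown_program {N d : ℕ} {A : Type} [AddCommGroup A] [Fintype A] [NeZero d]
    (g : Fin d → Equiv.Perm (Fin N)) (x0 : Fin N → A) (R : ℕ)
    (hA : (R + 1) * N ≤ Fintype.card A) (hN : 1 ≤ N) (hA2 : 2 ≤ Fintype.card A) :
    ∃ (Q Γ : Type) (_ : Finite Q) (_ : Finite Γ) (P : PBP (Cell d A) A Q Γ),
      Nat.card Q ≤ (d * Fintype.card A) ^ 4 ∧ Nat.card Γ ≤ (d * Fintype.card A) ^ 3 ∧
      ∀ I, P.Outputs I (out g x0 R I) ∧ Nat.card {c // P.Asks I c} ≤ (R * d + 1) * N := by
  obtain ⟨Q, Γ, h1, h2, P, h3, h4, h5⟩ := pushdown_program' g x0 R hA hN hA2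
  have hd : 1 ≤ d := NeZero.pos d
  exact ⟨Q, Γ, h1, h2, P, h3, h4.trans (Nat.pow_le_pow_right (by nlinarith) (by norm_num)), h5⟩

end Pool.Agent.Helper96.NS
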